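import Pool.Agent.Helper54.SAW.Defs

set_option autoImplicit false

/-!
# Planarity block (B) for the self-avoiding walk (MP_993f2f_pr)
-/

namespace Pool.Agent.Helper44.SAW

open Pool.Agent.Helper54.SAW

theorem X_nil : X [] = 0 := rfl
theorem Y_nil : Y [] = 0 := rfl
theorem X_cons (s : St) (l : List St) : X (s :: l) = dx s + X l := by simp [X]
theorem Y_cons (s : St) (l : List St) : Y (s :: l) = dy s + Y l := by simp [Y]
theorem X_append (u v : List St) : X (u ++ v) = X u + X v := by simp [X]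
theorem Y_append (u v : List St) : Y (u ++ v) = Y u + Y v := by simp [Y]

theorem dx_fx (s : St) : dx (fx s) = -dx s := by
  obtain ⟨i, b⟩ := s
  fin_cases i <;> cases b <;> simp [dx, fx]

theorem dy_fx (s : St) : dy (fx s) = dy s := by
  obtain ⟨i, b⟩ := s
  fin_cases i <;> cases b <;> simp [dy, fx]

theorem X_map_fx (l : List St) : X (l.map fx) = -X l := by
  induction l with
  | nil => simp [X]
  | cons s l ih => simp only [List.map_cons, X_cons, dx_fx, ih]; ring

theorem Y_map_fx (l : List St) : Y (l.map fx) = Y l := by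
  induction l with
  | nil => simp [Y]
  | cons s l ih => simp only [List.map_cons, Y_cons, dy_fx, ih]

/-- signed count of the horizontal steps of `A` between the columns `c` and `c + 1` at height
above `h`; the walk `A` ends at the origin. -/
def cr (c h : ℤ) : List St → ℤ
  | [] => 0
  | s :: A => (if s.1 = 0 ∧ h < -Y A ∧ ((s.2 = true ∧ -X A = c + 1) ∨ (s.2 = false ∧ -X A = c))
      then 1 else 0) + cr c h A

theorem cases_St (s : St) : s = (0, true) ∨ s = (0, false) ∨ s = (1, true) ∨ s = (1, false) := by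
  obtain ⟨i, b⟩ := s
  fin_cases i <;> cases b <;> simp

/-- entries and exits of the half column `x = c + 1`, `y > h`. -/
theorem cr_col (c h : ℤ) (A : List St)
    (H : ∀ u v : List St, A = u ++ v → ¬ (-X v = c + 1 ∧ -Y v = h)) :
    (cr c h A + cr (c + 1) h A + (if -X A = c + 1 ∧ h < -Y A then 1 else 0)
      + (if (0 : ℤ) = c + 1 ∧ h < 0 then 1 else 0)) % 2 = 0 := by
  induction A with
  | nil =>
    simp only [cr, X_nil, Y_nil, neg_zero]
    split_ifs <;> omega
  | cons s A ih =>
    have h1 := ih (fun u v huv => H (s :: u) v (by rw [huv]; rfl))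
    have h2 := H [] (s :: A) rfl
    have h3 := H [s] A rfl
    simp only [cr, X_cons, Y_cons] at h1 h2 h3 ⊢
    generalize X A = x at *
    generalize Y A = y at *
    generalize cr c h A = p at *
    generalize cr (c + 1) h A = q at *
    rcases cases_St s with rfl | rfl | rfl | rfl <;> simp [dx, dy] at h1 h2 h3 ⊢ <;>
      split_ifs at h1 ⊢ <;> omega

theorem cr_up (c h : ℤ) (A : List St)
    (H : ∀ u v : List St, A = u ++ v → ¬ (-X v = c ∧ -Y v = h + 1)) :
    cr c h A = cr c (h + 1) A := by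
  induction A with
  | nil => rfl
  | cons s A ih =>
    have h1 := ih (fun u v huv => H (s :: u) v (by rw [huv]; rfl))
    have h2 := H [] (s :: A) rfl
    have h3 := H [s] A rfl
    simp only [cr, X_cons, Y_cons] at h1 h2 h3 ⊢
    rw [h1]
    congr 1
    generalize X A = x at *
    generalize Y A = y at *
    rcases cases_St s with rfl | rfl | rfl | rfl <;> simp [dx, dy] at h2 h3 ⊢ <;>
      split_ifs <;> first | rfl | omega

theorem pts {A B : List St} (hs : Saw (A ++ B.map fx)) (b r : List St) (hB : B = b ++ r)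
    (hb : b ≠ []) (u v : List St) (hA : A = u ++ v) : ¬ (-X v = -X b ∧ -Y v = Y b) := by
  rintro ⟨h1, h2⟩
  refine hs u (v ++ b.map fx) (r.map fx) ?_ ?_ ?_
  · rw [hA, hB]; simp
  · simp [hb]
  · rw [X_append, Y_append, X_map_fx, Y_map_fx]
    constructor <;> omega

theorem step_inv {A B : List St} (hs : Saw (A ++ B.map fx)) (b : List St) (s : St) (r : List St)
    (hB : B = b ++ s :: r) (hb : b ≠ []) (d1 d2 : ℤ) (hd1 : 0 < d1) (hA : d2 ≤ X A)
    (h1 : d1 ≤ X b) (h2 : X b ≤ d2) (h3 : d1 ≤ X (b ++ [s])) (h4 : X (b ++ [s]) ≤ d2) :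
    (cr (-X (b ++ [s])) (Y (b ++ [s])) A - cr (-X b) (Y b) A) % 2 = 0 := by
  have p1 := pts hs b (s :: r) hB hb
  have p2 := pts hs (b ++ [s]) r (by rw [hB]; simp) (by simp)
  rw [X_append, X_cons, X_nil] at h3 h4
  rw [X_append, Y_append, X_cons, Y_cons, X_nil, Y_nil] at p2 ⊢
  rcases cases_St s with rfl | rfl | rfl | rfl
  · have hx : dx ((0 : Fin 2), true) = 1 := by simp [dx]
    have hy : dy ((0 : Fin 2), true) = 0 := by simp [dy]
    rw [hx] at h3 h4
    rw [hx, hy] at p2 ⊢
    have := cr_col (-X b - 1) (Y b) A (fun u v huv hh => p1 u v huv ⟨by omega, by omega⟩)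
    rw [show -X b - 1 + 1 = -X b by ring, if_neg (by omega), if_neg (by omega)] at this
    rw [show -(X b + (1 + 0)) = -X b - 1 by ring, show Y b + (0 + 0) = Y b by ring]
    omega
  · have hx : dx ((0 : Fin 2), false) = -1 := by simp [dx]
    have hy : dy ((0 : Fin 2), false) = 0 := by simp [dy]
    rw [hx] at h3 h4
    rw [hx, hy] at p2 ⊢
    have := cr_col (-X b) (Y b) A (fun u v huv hh => p2 u v huv ⟨by omega, by omega⟩)
    rw [if_neg (by omega), if_neg (by omega)] at this
    rw [show -(X b + (-1 + 0)) = -X b + 1 by ring, show Y b + (0 + 0) = Y b by ring]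
    omega
  · have hx : dx ((1 : Fin 2), true) = 0 := by simp [dx]
    have hy : dy ((1 : Fin 2), true) = 1 := by simp [dy]
    rw [hx] at h3 h4
    rw [hx, hy] at p2 ⊢
    have := cr_up (-X b) (Y b) A (fun u v huv hh => p2 u v huv ⟨by omega, by omega⟩)
    rw [show -(X b + (0 + 0)) = -X b by ring, show Y b + (1 + 0) = Y b + 1 by ring, this]
    omega
  · have hx : dx ((1 : Fin 2), false) = 0 := by simp [dx]
    have hy : dy ((1 : Fin 2), false) = -1 := by simp [dy]
    rw [hx] at h3 h4
    rw [hx, hy] at p2 ⊢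
    have := cr_up (-X b) (Y b - 1) A (fun u v huv hh => p1 u v huv ⟨by omega, by omega⟩)
    rw [show -(X b + (0 + 0)) = -X b by ring, show Y b + (-1 + 0) = Y b - 1 by ring, this]
    rw [show Y b - 1 + 1 = Y b by ring]
    omega

theorem path_inv {A B : List St} (hs : Saw (A ++ B.map fx)) (b : List St) (hb : b ≠ [])
    (d2 : ℤ) (hd1 : 0 < X b) (hA : d2 ≤ X A) (v : List St) : ∀ (r : List St)
    (_ : B = b ++ v ++ r)
    (_ : ∀ v1 v2 : List St, v = v1 ++ v2 → X b ≤ X (b ++ v1) ∧ X (b ++ v1) ≤ d2),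
    (cr (-X (b ++ v)) (Y (b ++ v)) A - cr (-X b) (Y b) A) % 2 = 0 := by
  induction v using List.reverseRecOn with
  | nil => intro r _ _; simp
  | append_singleton v s ih =>
    intro r hB hv
    have h1 := ih (s :: r) (by rw [hB]; simp)
      (fun v1 v2 h12 => hv v1 (v2 ++ [s]) (by rw [h12]; simp))
    have e1 := hv v [s] rfl
    have e2 := hv (v ++ [s]) [] (by simp)
    have h2 := step_inv hs (b ++ v) s r (by rw [hB]; simp) (by simp [hb]) (X b) d2 hd1 hA
      e1.1 e1.2 (by simpa using e2.1) (by simpa using e2.2)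
    rw [List.append_assoc] at h2
    omega

theorem cr_append_left (h : ℤ) (A a : List St) (H : LeftOK A) :
    cr (-X a) h (A ++ a) = cr (-X a) h a := by
  induction A with
  | nil => rfl
  | cons s A ih =>
    have h1 := ih (fun u v huv => H (s :: u) v (by rw [huv]; rfl))
    have h2 := H [] (s :: A) rfl
    have h3 := H [s] A rfl
    rw [List.cons_append, cr, h1, if_neg, zero_add]
    rw [X_cons] at h2
    rw [X_append]
    rcases cases_St s with rfl | rfl | rfl | rfl <;> simp [dx] at h2 h3 ⊢ <;> omega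

theorem cr_right (c h : ℤ) (A : List St) (H : ∀ u v : List St, A = u ++ v → c + 1 ≤ -X v) :
    cr c h A = 0 := by
  induction A with
  | nil => rfl
  | cons s A ih =>
    have h1 := ih (fun u v huv => H (s :: u) v (by rw [huv]; rfl))
    have h2 := H [] (s :: A) rfl
    have h3 := H [s] A rfl
    rw [cr, h1, if_neg, zero_add]
    rw [X_cons] at h2
    rcases cases_St s with rfl | rfl | rfl | rfl <;> simp [dx] at h2 h3 ⊢ <;> omega

theorem cr_cut (h : ℤ) (A a : List St) (hA : LeftOK A) (ha : RightOK a) (hne : a ≠ []) :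
    cr (-X a) h (A ++ a) = if h < -Y a then 1 else 0 := by
  rw [cr_append_left h A a hA]
  match a, hne with
  | s :: a, _ =>
    have h1 := ha [s] a rfl (by simp)
    rw [X_cons, X_nil] at h1
    have hs : s = (0, true) := by
      rcases cases_St s with rfl | rfl | rfl | rfl <;> simp [dx] at h1 ⊢
    subst hs
    have hx : dx ((0 : Fin 2), true) = 1 := by simp [dx]
    have hy : dy ((0 : Fin 2), true) = 0 := by simp [dy]
    rw [cr, cr_right, X_cons, Y_cons, hx, hy]
    · simp
    · intro u v huv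
      have h2 := ha ((0, true) :: u) v (by rw [huv]; rfl) (by simp)
      rw [X_cons, hx] at h2 ⊢
      rw [huv, X_append]
      omega

theorem two_cuts {A B : List St} (hs : Saw (A ++ B.map fx)) (A1 a b v B1 : List St)
    (hA : A = A1 ++ a) (hB : B = b ++ v ++ B1) (hb : b ≠ [])
    (h1 : LeftOK A1) (h4 : RightOK (v ++ B1)) (h5 : LeftOK (b ++ v)) (hpos : 0 < X b)
    (hX : X a = X (b ++ v)) :
    (cr (-X (b ++ v)) (Y (b ++ v)) A - cr (-X b) (Y b) A) % 2 = 0 := by
  refine path_inv hs b hb (X (b ++ v)) hpos ?_ v B1 hB ?_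
  · rw [← hX, hA, X_append A1 a]
    have := h1 [] A1 rfl
    omega
  · intro v1 v2 h12
    constructor
    · by_cases hv1 : v1 = []
      · simp [hv1]
      · have := h4 v1 (v2 ++ B1) (by rw [h12]; simp) hv1
        rw [X_append]; omega
    · have := h5 (b ++ v1) v2 (by rw [h12]; simp)
      rw [h12, ← List.append_assoc, X_append (b ++ v1)]; omega

/-- planarity: at common cut depths of the two strands of a folded self-avoiding walk the
second strand is always on the same side of the first one. -/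
theorem planar (A B : List St) (hs : Saw (A ++ B.map fx)) :
    ∃ e : ℤ, (e = 1 ∨ e = -1) ∧ ∀ A1 a b B1 : List St, A = A1 ++ a → B = b ++ B1 → a ≠ [] → b ≠ [] →
      LeftOK A1 → RightOK a → LeftOK b → RightOK B1 → X a = X b → 0 < e * (Y a + Y b) := by
  have key : ∀ A1 a b B1 A1' a' b' B1' : List St, A = A1 ++ a → B = b ++ B1 → a ≠ [] → b ≠ [] →
      LeftOK A1 → RightOK a → LeftOK b → RightOK B1 → X a = X b →
      A = A1' ++ a' → B = b' ++ B1' → a' ≠ [] → b' ≠ [] →
      LeftOK A1' → RightOK a' → LeftOK b' → RightOK B1' → X a' = X b' →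
      (Y a + Y b < 0 ↔ Y a' + Y b' < 0) := by
    intro A1 a b B1 A1' a' b' B1' hA hB ha hb h1 h2 h3 h4 hX hA' hB' ha' hb' h1' h2' h3' h4' hX'
    have c1 := cr_cut (Y b) A1 a h1 h2 ha
    have c2 := cr_cut (Y b') A1' a' h1' h2' ha'
    rw [← hA, hX] at c1
    rw [← hA', hX'] at c2
    have p1 : 0 < X b := by rw [← hX]; exact h2 a [] (by simp) ha
    have p2 : 0 < X b' := by rw [← hX']; exact h2' a' [] (by simp) ha'
    have main : (cr (-X b') (Y b') A - cr (-X b) (Y b) A) % 2 = 0 := by
      have hbb : b ++ B1 = b' ++ B1' := by rw [← hB, ← hB']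
      rcases List.append_eq_append_iff.1 hbb with ⟨v, hv1, hv2⟩ | ⟨v, hv1, hv2⟩
      · subst hv1 hv2
        exact two_cuts hs A1' a' b v B1' hA' (by rw [hB']) hb h1' h4 h3' p1 hX'
      · subst hv1 hv2
        have := two_cuts hs A1 a b' v B1 hA (by rw [hB]) hb' h1 h4' h3 p2 hX
        omega
    rw [c1, c2] at main
    split_ifs at main <;> omega
  by_cases hex : ∃ A1 a b B1 : List St, A = A1 ++ a ∧ B = b ++ B1 ∧ a ≠ [] ∧ b ≠ [] ∧
      LeftOK A1 ∧ RightOK a ∧ LeftOK b ∧ RightOK B1 ∧ X a = X b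
  · obtain ⟨A1, a, b, B1, hA, hB, ha, hb, h1, h2, h3, h4, hX⟩ := hex
    refine ⟨if Y a + Y b < 0 then -1 else 1, ?_, ?_⟩
    · split_ifs <;> simp
    · intro A1' a' b' B1' hA' hB' ha' hb' h1' h2' h3' h4' hX'
      have k := key A1 a b B1 A1' a' b' B1' hA hB ha hb h1 h2 h3 h4 hX hA' hB' ha' hb' h1' h2' h3'
        h4' hX'
      have q := pts hs b' B1' hB' hb' A1' a' hA'
      split_ifs with hh
      · have := k.1 hh
        omega
      · have : ¬ (Y a' + Y b' < 0) := fun h => hh (k.2 h)
        omega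
  · refine ⟨1, Or.inl rfl, ?_⟩
    intro A1 a b B1 hA hB ha hb h1 h2 h3 h4 hX
    exact absurd ⟨A1, a, b, B1, hA, hB, ha, hb, h1, h2, h3, h4, hX⟩ hex

end Pool.Agent.Helper44.SAW
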